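import Mathlib
import Pool.Agent.R915.Sys
import Pool.Agent.W546.GHC.Defs

/-!
# The Chow groups of complex abelian varieties: known formal properties

The structure `ChowTheory` collects known properties of the correspondences modulo rational
equivalence, with rational coefficients, between complex abelian varieties (`AV`, up to isogeny), and
of their action on the cohomology.
-/

namespace Pool.Agent.N178.BL

open Module Pool.Agent.Y90 Pool.Agent.R915
open Pool.Agent.W546.GHC (IsHodgeSubstructure complexify typeForms)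

/-- The cohomology `⊕ H^m(X, ℚ)` of the abelian variety `X`; the elements are the families of classes
of degree `m`, for all `m` (classes of large degree are zero). -/
def HT (X : AV) : Type := ∀ m : ℕ, X.H [⋀^Fin m]→ₗ[ℚ] ℚ

instance HT.grp (X : AV) : AddCommGroup (HT X) := Pi.addCommGroup

/-- Correspondences between complex abelian varieties, with their composition, their degrees, and
their action on the cohomology; the algebraic classes on abelian varieties; and known properties. -/
structure ChowTheory where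
  /-- correspondences from `X` to `Y`: the elements of `CH(X × Y) ⊗ ℚ = ⊕ CH_i(X × Y) ⊗ ℚ` -/
  Co : AV → AV → Type
  [add : ∀ X Y, AddCommGroup (Co X Y)]
  /-- correspondences of degree `r`: the elements of `CH_(dim X + r)(X × Y) ⊗ ℚ`; they map cycles of
  dimension `i` on `X` to cycles of dimension `i + r` on `Y` -/
  IsDeg : ∀ {X Y}, ℤ → Co X Y → Prop
  /-- the diagonal of `X` -/
  one : ∀ X, Co X X
  /-- the composition `g ∘ f` -/
  o : ∀ {X Y Z}, Co Y Z → Co X Y → Co X Z
  /-- the action `f^*` on the cohomology -/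
  pb : ∀ {X Y}, Co X Y → HT Y → HT X
  /-- the rational classes on abelian varieties which are algebraic -/
  alg : Sys
  assoc : ∀ {X Y Z W} (f : Co X Y) (g : Co Y Z) (h : Co Z W), o h (o g f) = o (o h g) f
  one_o : ∀ {X Y} (f : Co X Y), o (one Y) f = f
  o_one : ∀ {X Y} (f : Co X Y), o f (one X) = f
  o_add : ∀ {X Y Z} (f : Co Y Z) (a b : Co X Y), o f (a + b) = o f a + o f b
  add_o : ∀ {X Y Z} (a b : Co Y Z) (f : Co X Y), o (a + b) f = o a f + o b f
  pb_one : ∀ X (ω : HT X), pb (one X) ω = ω
  pb_o : ∀ {X Y Z} (f : Co X Y) (g : Co Y Z) (ω : HT Z), pb (o g f) ω = pb f (pb g ω)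
  add_pb : ∀ {X Y} (a b : Co X Y) (ω : HT Y), pb (a + b) ω = pb a ω + pb b ω
  pb_add : ∀ {X Y} (f : Co X Y) (ω η : HT Y), pb f (ω + η) = pb f ω + pb f η
  deg_one : ∀ X, IsDeg 0 (one X)
  deg_sub : ∀ {X Y} {r : ℤ} (f g : Co X Y), IsDeg r f → IsDeg r g → IsDeg r (f - g)
  deg_o : ∀ {X Y Z} {r s : ℤ} (f : Co X Y) (g : Co Y Z), IsDeg r f → IsDeg s g →
    IsDeg (r + s) (o g f)
  /-- there are no cycles of negative dimension -/
  deg_neg : ∀ {X Y} {r : ℤ} (f : Co X Y), IsDeg r f → (finrank ℚ X.H : ℤ) + 2 * r < 0 → f = 0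
  /-- the cycles on a point are multiples of the point -/
  point : ∀ {X Y} (f : Co X Y), finrank ℚ X.H = 0 → finrank ℚ Y.H = 0 → (∀ ω, pb f ω = 0) → f = 0
  /-- the images of correspondences of degree zero are Hodge substructures -/
  hodge : ∀ {X} (f : Co X X), IsDeg 0 f → ∀ m : ℕ,
    IsHodgeSubstructure X.per (Submodule.span ℚ {θ | ∃ ω, θ = pb f ω m})
  /-- Kimura, O'Sullivan: the Chow motive of `X` is finite dimensional, so correspondences of degree
  zero which are homologically trivial are nilpotent -/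
  nilpotent : ∀ {X} (f : Co X X), IsDeg 0 f → (∀ ω, pb f ω = 0) →
    ∃ N : ℕ, (fun g : Co X X => o f g)^[N] (one X) = 0
  /-- Lieberman, Jannsen: the category of the motives of abelian varieties modulo homological
  equivalence is semisimple, so each morphism has a generalized inverse -/
  regular : ∀ {X Y} {r : ℤ} (f : Co X Y), IsDeg r f →
    ∃ g : Co Y X, IsDeg (-r) g ∧ ∀ ω, pb (o f (o g f)) ω = pb f ω
  /-- Lieberman: let `τ` be an algebraic class of degree `n + m = 2 (n + j)` on `P = Y × X`. The map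
  `H_n(Y, ℚ) → H^m(X, ℚ)` given by `τ`, composed with an isomorphism `H^n(Y, ℚ) ≅ H_n(Y, ℚ)` given by
  a polarization, is the action of an algebraic correspondence of degree `-j` from `X` to `Y` -/
  classes : ∀ {X Y P : AV} (a : Y.H →ₗ[ℚ] P.H) (b : X.H →ₗ[ℚ] P.H), IsHom Y P a → IsHom X P b →
    Function.Bijective (fun w : Y.H × X.H => a w.1 + b w.2) → ∀ (n m j : ℕ), m = n + 2 * j →
    ∀ τ : P.H [⋀^Fin n ⊕ Fin m]→ₗ[ℚ] ℚ, alg.A P (Fin n ⊕ Fin m) τ →
    ∃ f : Co X Y, IsDeg (-j) f ∧ ∀ (y : Fin n → Y.H) (θ : X.H [⋀^Fin m]→ₗ[ℚ] ℚ),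
      (∀ x : Fin m → X.H, θ x = τ (Sum.elim (fun k => a (y k)) fun l => b (x l))) →
      ∃ ω, pb f ω m = θ ∧ ∀ l, l ≠ m → pb f ω l = 0

attribute [instance] ChowTheory.add

namespace ChowTheory

variable (C : ChowTheory) {X : AV}

/-- The image of the correspondence `p` from `X` to `X` in `H^m(X, ℚ)`. If `p` is an idempotent of
degree zero this is the cohomology `H^m(M, ℚ)` of the Chow motive `M = (X, p)`. -/
def img (p : C.Co X X) (m : ℕ) : Submodule ℚ (X.H [⋀^Fin m]→ₗ[ℚ] ℚ) :=
  Submodule.span ℚ {θ | ∃ ω, θ = C.pb p ω m}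

/-- `p` is an idempotent correspondence of degree zero, so that `(X, p)` is a Chow motive. -/
def IsMotive (p : C.Co X X) : Prop := C.IsDeg 0 p ∧ C.o p p = p

/-- The Chow motive `(X, p)` has Hodge coniveau at least `c`: its Hodge numbers `h^(s, t)` are zero
for all `s ≠ t` with `s < c` or `t < c`. -/
def HasConiveau (p : C.Co X X) (c : ℕ) : Prop :=
  ∀ m s t : ℕ, s + t = m → s ≠ t → (s < c ∨ t < c) →
    complexify X.per (C.img p m) ⊓ typeForms X.T m s t = ⊥

end ChowTheory

end Pool.Agent.N178.BL
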