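import Mathlib
import Pool.Agent.N178.BL.Defs

/-!
# The decomposition of the motive
-/

set_option linter.unusedSectionVars false

namespace Pool.Agent.N178.BL

open Module Pool.Agent.Y90 Pool.Agent.R915
open Pool.Agent.W546.GHC (IsHodgeSubstructure complexify typeForms)

noncomputable section

variable (C : ChowTheory) {X Y Z : AV}

/-- The pairs `(Y, r)` which are allowed. -/
def Alw (c : ℕ) (Y : AV) (r : ℤ) : Prop := r = c ∨ (r < c ∧ finrank ℚ Y.H = 0)

/-- The sums of compositions `κ ∘ Γ`, where `Γ` is a correspondence of degree `-r` from `X` to an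
abelian variety `Y` and `κ` a correspondence of degree `r` from `Y` to `X`, with `r = c`, or `r < c`
and `Y` is a point. -/
def Fac (X : AV) (c : ℕ) : AddSubgroup (C.Co X X) :=
  AddSubgroup.closure {q | ∃ (Y : AV) (r : ℤ) (Γ : C.Co X Y) (κ : C.Co Y X), Alw c Y r ∧
    C.IsDeg (-r) Γ ∧ C.IsDeg r κ ∧ q = C.o κ Γ}

variable {C} {c : ℕ}

theorem o_zero (f : C.Co Y Z) : C.o f (0 : C.Co X Y) = 0 := by
  have h := C.o_add f (0 : C.Co X Y) 0
  rwa [add_zero, left_eq_add] at h
theorem zero_o (f : C.Co X Y) : C.o (0 : C.Co Y Z) f = 0 := by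
  have h := C.add_o (0 : C.Co Y Z) 0 f
  rwa [add_zero, left_eq_add] at h
theorem o_neg (f : C.Co Y Z) (a : C.Co X Y) : C.o f (-a) = -C.o f a := by
  have h := C.o_add f a (-a)
  rw [add_neg_cancel, o_zero] at h
  exact (neg_eq_of_add_eq_zero_right h.symm).symm
theorem neg_o (a : C.Co Y Z) (f : C.Co X Y) : C.o (-a) f = -C.o a f := by
  have h := C.add_o a (-a) f
  rw [add_neg_cancel, zero_o] at h
  exact (neg_eq_of_add_eq_zero_right h.symm).symm
theorem pb_zero (f : C.Co X Y) : C.pb f 0 = 0 := by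
  have h := C.pb_add f 0 0
  rwa [add_zero, left_eq_add] at h

instance HT.mod (X : AV) : Module ℚ (HT X) :=
  inferInstanceAs (Module ℚ (∀ m : ℕ, X.H [⋀^Fin m]→ₗ[ℚ] ℚ))

/-- The pullback as a linear map. -/
def pbL (f : C.Co X Y) : HT Y →ₗ[ℚ] HT X :=
  AddMonoidHom.toRatLinearMap ⟨⟨C.pb f, pb_zero f⟩, C.pb_add f⟩

theorem pbL_apply (f : C.Co X Y) (ω : HT Y) : pbL f ω = C.pb f ω := rfl

theorem zero_pb (ω : HT Y) : C.pb (0 : C.Co X Y) ω = 0 := by
  have h := C.add_pb (0 : C.Co X Y) 0 ω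
  rwa [add_zero, left_eq_add] at h
theorem pb_sub (a b : C.Co X Y) (ω : HT Y) : C.pb (a - b) ω = C.pb a ω - C.pb b ω := by
  have h := C.add_pb (a - b) b ω
  rw [sub_add_cancel] at h
  rw [h, add_sub_cancel_right]

theorem deg_zero {r : ℤ} {f : C.Co X Y} (hf : C.IsDeg r f) : C.IsDeg r (0 : C.Co X Y) := by
  have h := C.deg_sub f f hf hf
  rwa [sub_self] at h
theorem deg_neg' {r : ℤ} {f : C.Co X Y} (hf : C.IsDeg r f) : C.IsDeg r (-f) := by
  have h := C.deg_sub 0 f (deg_zero hf) hf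
  rwa [zero_sub] at h
theorem deg_add {r : ℤ} {f g : C.Co X Y} (hf : C.IsDeg r f) (hg : C.IsDeg r g) :
    C.IsDeg r (f + g) := by
  have h := C.deg_sub f (-g) hf (deg_neg' hg)
  rwa [sub_neg_eq_add] at h
theorem deg_sum {r : ℤ} {ι : Type} (s : Finset ι) (f : ι → C.Co X Y) {g : C.Co X Y}
    (hg : C.IsDeg r g) (hf : ∀ i ∈ s, C.IsDeg r (f i)) : C.IsDeg r (∑ i ∈ s, f i) := by
  classical
  induction s using Finset.induction_on with
  | empty => rw [Finset.sum_empty]; exact deg_zero hg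
  | insert i s hi ih =>
    rw [Finset.sum_insert hi]
    exact deg_add (hf i (Finset.mem_insert_self _ _))
      (ih fun j hj => hf j (Finset.mem_insert_of_mem hj))

theorem Fac_deg {q : C.Co X X} (hq : q ∈ Fac C X c) : C.IsDeg 0 q := by
  unfold Fac at hq
  induction hq using AddSubgroup.closure_induction with
  | mem q hq =>
    obtain ⟨Y, r, Γ, κ, -, h1, h2, rfl⟩ := hq
    have h3 := C.deg_o Γ κ h1 h2
    rwa [neg_add_cancel] at h3
  | zero => exact deg_zero (C.deg_one X)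
  | add a b _ _ ha hb => exact deg_add ha hb
  | neg a _ ha => exact deg_neg' ha

theorem Fac_left {q f : C.Co X X} (hf : C.IsDeg 0 f) (hq : q ∈ Fac C X c) :
    C.o f q ∈ Fac C X c := by
  have h := hq
  unfold Fac at h
  induction h using AddSubgroup.closure_induction with
  | mem q hq' =>
    obtain ⟨Y, r, Γ, κ, h0, h1, h2, rfl⟩ := hq'
    refine AddSubgroup.subset_closure ⟨Y, r, Γ, C.o f κ, h0, h1, ?_, (C.assoc Γ κ f)⟩
    have h3 := C.deg_o κ f h2 hf
    rwa [add_zero] at h3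
  | zero => rw [o_zero]; exact AddSubgroup.zero_mem _
  | add a b ha' hb' ha hb => rw [C.o_add]; exact AddSubgroup.add_mem _ (ha ha') (hb hb')
  | neg a ha' ha => rw [o_neg]; exact AddSubgroup.neg_mem _ (ha ha')

theorem Fac_right {q f : C.Co X X} (hf : C.IsDeg 0 f) (hq : q ∈ Fac C X c) :
    C.o q f ∈ Fac C X c := by
  have h := hq
  unfold Fac at h
  induction h using AddSubgroup.closure_induction with
  | mem q hq' =>
    obtain ⟨Y, r, Γ, κ, h0, h1, h2, rfl⟩ := hq'
    refine AddSubgroup.subset_closure ⟨Y, r, C.o Γ f, κ, h0, ?_, h2, (C.assoc f Γ κ).symm⟩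
    have h3 := C.deg_o f Γ hf h1
    rwa [zero_add] at h3
  | zero => rw [zero_o]; exact AddSubgroup.zero_mem _
  | add a b ha' hb' ha hb => rw [C.add_o]; exact AddSubgroup.add_mem _ (ha ha') (hb hb')
  | neg a ha' ha => rw [neg_o]; exact AddSubgroup.neg_mem _ (ha ha')

/-- Add one more range. -/
theorem add_range {q : C.Co X X} (hq : q ∈ Fac C X c) {Y : AV} {r : ℤ} (hr : Alw c Y r)
    {Γ : C.Co X Y} (hΓ : C.IsDeg (-r) Γ) :
    ∃ q' ∈ Fac C X c, (∀ v, C.pb q v = v → C.pb q' v = v) ∧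
      ∀ ω, C.pb q' (C.pb Γ ω) = C.pb Γ ω := by
  obtain ⟨e, he⟩ : ∃ e, e = C.one X - q := ⟨_, rfl⟩
  have hed : C.IsDeg 0 e := by
    rw [he]
    exact C.deg_sub _ _ (C.deg_one X) (Fac_deg hq)
  have hΓe : C.IsDeg (-r) (C.o Γ e) := by
    have h3 := C.deg_o e Γ hed hΓ
    rwa [zero_add] at h3
  obtain ⟨s, hs, hs'⟩ := C.regular (C.o Γ e) hΓe
  rw [neg_neg] at hs
  have hce : ∀ v, C.pb e v = v - C.pb q v := by
    intro v
    rw [he, pb_sub, C.pb_one]
  have hes : C.IsDeg r (C.o e s) := by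
    have h3 := C.deg_o s e hs hed
    rwa [add_zero] at h3
  refine ⟨q + C.o (C.o e s) (C.o Γ e), AddSubgroup.add_mem _ hq
    (AddSubgroup.subset_closure ⟨Y, r, _, _, hr, hΓe, hes, rfl⟩), fun v hv => ?_, fun ω => ?_⟩
  · rw [C.add_pb, C.pb_o, C.pb_o s e, hce v, hv, sub_self, pb_zero, pb_zero, add_zero]
  · have h1 := hs' ω
    rw [C.pb_o, C.pb_o (C.o Γ e) s] at h1
    have h2 : C.pb (C.o Γ e) ω = C.pb Γ ω - C.pb q (C.pb Γ ω) := by
      have h3 : C.pb (C.o Γ e) ω = C.pb e (C.pb Γ ω) := C.pb_o e Γ ω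
      rw [h3, hce]
    rw [C.add_pb, C.pb_o, C.pb_o s e, hce (C.pb Γ ω), ← h2, h1, h2]
    abel

/-- The set of the ranges. -/
abbrev Ix (C : ChowTheory) (X : AV) (c : ℕ) : Type _ :=
  Σ' (Y : AV) (r : ℤ) (Γ : C.Co X Y), Alw c Y r ∧ C.IsDeg (-r) Γ

def Rg (i : Ix C X c) : Submodule ℚ (HT X) := LinearMap.range (pbL i.2.2.1)

/-- Finitely generated subspaces of the sum of the ranges are fixed by an element of `Fac`. -/
theorem exists_fix {U : Submodule ℚ (HT X)} (hU : U.FG) (h : U ≤ ⨆ i : Ix C X c, Rg i) :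
    ∃ q ∈ Fac C X c, ∀ v ∈ U, C.pb q v = v := by
  classical
  obtain ⟨t, ht⟩ := CompleteLattice.IsCompactElement.exists_finset_of_le_iSup (Submodule ℚ (HT X))
    ((Submodule.fg_iff_compact U).1 hU) _ h
  have key : ∀ t : Finset (Ix C X c), ∃ q ∈ Fac C X c, ∀ i ∈ t, ∀ ω,
      C.pb q (C.pb i.2.2.1 ω) = C.pb i.2.2.1 ω := by
    intro t
    induction t using Finset.induction_on with
    | empty => exact ⟨0, AddSubgroup.zero_mem _, fun i hi => absurd hi (Finset.notMem_empty _)⟩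
    | insert i t hi ih =>
      obtain ⟨q, hq, h1⟩ := ih
      obtain ⟨q', hq', h2, h3⟩ := add_range hq i.2.2.2.1 i.2.2.2.2
      refine ⟨q', hq', fun j hj ω => ?_⟩
      rcases Finset.mem_insert.1 hj with rfl | hj
      · exact h3 ω
      · exact h2 _ (h1 j hj ω)
  obtain ⟨q, hq, h1⟩ := key t
  refine ⟨q, hq, fun v hv => ?_⟩
  have h2 : (⨆ i ∈ t, Rg i) ≤ LinearMap.eqLocus (pbL q) LinearMap.id := by
    refine iSup₂_le fun i hi => ?_
    rintro _ ⟨ω, rfl⟩
    exact h1 i hi ω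
  exact h2 (ht hv)

/-- **The lifting.** -/
theorem lift {p : C.Co X X} (hp : C.IsMotive p) {q : C.Co X X} (hq : q ∈ Fac C X c)
    (hqp : ∀ v, C.pb q (C.pb p v) = C.pb p v) : p ∈ Fac C X c := by
  obtain ⟨hpd, hpp⟩ := hp
  -- the ring of correspondences
  let _ : Ring (C.Co X X) :=
    { C.add X X with
      mul := fun f g => C.o f g
      one := C.one X
      mul_assoc := fun f g h => (C.assoc h g f).symm
      one_mul := C.one_o
      mul_one := C.o_one
      left_distrib := fun f g h => C.o_add f g h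
      right_distrib := fun f g h => C.add_o f g h
      zero_mul := fun f => zero_o f
      mul_zero := fun f => o_zero f
      zsmul := (C.add X X).zsmul
      neg := (C.add X X).neg
      sub := (C.add X X).sub
      sub_eq_add_neg := (C.add X X).sub_eq_add_neg
      zsmul_zero' := (C.add X X).zsmul_zero'
      zsmul_succ' := (C.add X X).zsmul_succ'
      zsmul_neg' := (C.add X X).zsmul_neg'
      neg_add_cancel := (C.add X X).neg_add_cancel }
  have hm : ∀ f g : C.Co X X, C.o f g = f * g := fun f g => rfl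
  have h1 : C.one X = 1 := rfl
  rw [hm] at hpp
  have hqd := Fac_deg hq
  have hpqp : p * (q * p) ∈ Fac C X c := Fac_left hpd (Fac_right hpd hq)
  have hν : ∃ N : ℕ, (p - p * (q * p)) ^ N = 0 := by
    obtain ⟨N, hN⟩ := C.nilpotent (p - p * (q * p)) (C.deg_sub _ _ hpd (Fac_deg hpqp)) (by
      intro v
      have h2 : C.pb (p * (q * p)) v = C.pb (q * p) (C.pb p v) := C.pb_o _ _ _
      have h3 : C.pb (q * p) (C.pb p v) = C.pb p (C.pb q (C.pb p v)) := C.pb_o _ _ _
      have h4 : C.pb (p * p) v = C.pb p (C.pb p v) := C.pb_o _ _ _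
      rw [hpp] at h4
      have h5 : C.pb (p - p * (q * p)) v = C.pb p v - C.pb (p * (q * p)) v := pb_sub _ _ _
      rw [h5, h2, h3, hqp, ← h4, sub_self])
    refine ⟨N, ?_⟩
    rw [← hN]
    have h2 : ∀ N : ℕ, (fun g : C.Co X X => C.o (p - p * (q * p)) g)^[N] (C.one X) =
        (p - p * (q * p)) ^ N := by
      intro N
      induction N with
      | zero => simp only [Function.iterate_zero, id_eq, pow_zero, h1]
      | succ N ih => rw [Function.iterate_succ_apply', ih, pow_succ']; rfl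
    exact (h2 N).symm
  obtain ⟨N, hN⟩ := hν
  obtain ⟨ν, hνd⟩ : ∃ ν, ν = p - p * (q * p) := ⟨_, rfl⟩
  rw [← hνd] at hN
  have hpν : p * ν = ν := by
    rw [hνd, mul_sub, hpp, ← mul_assoc p p, hpp]
  have h2 : p - ν = p * (q * p) := by rw [hνd]; abel
  have h3 : (p - ν) * ∑ k ∈ Finset.range N, ν ^ k = p := by
    have h4 : p - ν = p * (1 - ν) := by rw [mul_sub, mul_one, hpν]
    rw [h4, mul_assoc, mul_neg_geom_sum, hN, sub_zero, mul_one]
  have hνdeg : ∀ k : ℕ, C.IsDeg 0 (ν ^ k) := by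
    intro k
    induction k with
    | zero =>
      rw [pow_zero]
      exact C.deg_one X
    | succ k ih =>
      rw [pow_succ]
      have h5 := C.deg_o (r := 0) (s := 0) ν (ν ^ k) (by
        rw [hνd]
        exact C.deg_sub _ _ hpd (Fac_deg hpqp)) ih
      rwa [add_zero] at h5
  rw [← h3, h2]
  exact Fac_right (deg_sum _ _ (C.deg_one X) fun k _ => hνdeg k) hpqp

end

end Pool.Agent.N178.BL
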