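import Mathlib
import Pool.Agent.N178.BL.Dec
import Pool.Agent.N222.GHC.Asm
import Pool.Agent.N507.GHC3.Zero

/-!
# The generalized Hodge conjecture implies the generalized Bloch conjecture
-/

set_option linter.unusedSectionVars false

namespace Pool.Agent.N178.BL

open Module Pool.Agent.Y90 Pool.Agent.R915 Pool.Agent.W437.HC Pool.Agent.W437.HD
open Pool.Agent.W546.GHC (IsHodgeSubstructure LevelLE complexify typeForms)
open Pool.Agent.N178.HX (Cor GHC)
open Pool.Agent.TH131.GHC (Frame)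
open Pool.Agent.N222.GHC (exists_frame)
open Pool.Agent.W437.HP (cK cK_mul cK_one)

noncomputable section

/-- Every rational form extends to the tangent space. -/
theorem ext_of (X : AV) {κ : Type} [Fintype κ] [DecidableEq κ] (f : X.H [⋀^κ]→ₗ[ℚ] ℚ) :
    ∃ ψ : X.T [⋀^κ]→ₗ[ℝ] ℂ, ∀ w : κ → X.H, ψ (fun l => X.per (w l)) = ((f w : ℚ) : ℂ) := by
  obtain ⟨G, Z, h, A, hC⟩ := exists_ppav (AV.isAV X)
  obtain ⟨Ψ₁, h₁⟩ := h.cht.hom hC (R := 1) (by rw [cK_one, Matrix.one_mul, Matrix.mul_one])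
  obtain ⟨Ψ₂, h₂⟩ := hC.hom h.cht (R := 1) (by rw [cK_one, Matrix.one_mul, Matrix.mul_one])
  have e₁ : ∀ w, Ψ₁ (perOne Z w) = X.per (A.symm w) := fun w => by
    rw [h₁, Matrix.one_mulVec]
    rfl
  have e₂ : ∀ v, Ψ₂ (X.per v) = perOne Z (A v) := fun v => by
    have h3 := h₂ (A v)
    have h4 : (X.per.comp A.symm.toLinearMap.toAddMonoidHom) (A v) = X.per v := by
      change X.per (A.symm (A v)) = X.per v
      rw [LinearEquiv.symm_apply_apply]
    rwa [h4, Matrix.one_mulVec] at h3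
  obtain ⟨Fr, -, -⟩ := exists_frame h (X := X) A.toLinearMap A.symm.toLinearMap
    (fun v => A.symm_apply_apply v) e₂ e₁
  exact Fr.exists_ext f

/-- A subspace with zero complexification is zero. -/
theorem eq_bot_of {X : AV} {m : ℕ} {V : Submodule ℚ (X.H [⋀^Fin m]→ₗ[ℚ] ℚ)}
    (h : complexify X.per V = ⊥) : V = ⊥ := by
  rw [Submodule.eq_bot_iff]
  intro f hf
  obtain ⟨ψ, hψ⟩ := ext_of X f
  have h1 : ψ ∈ complexify X.per V := Submodule.subset_span ⟨f, hf, hψ⟩
  rw [h, Submodule.mem_bot] at h1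
  ext w
  have h2 := hψ w
  rw [h1, AlternatingMap.zero_apply] at h2
  rw [AlternatingMap.zero_apply]
  exact_mod_cast h2.symm

/-- A point. -/
theorem exists_point : ∃ O : AV, finrank ℚ O.H = 0 := by
  have h : PM (0 : Matrix (Fin 0) (Fin 0) ℂ) := by
    refine ⟨Subsingleton.elim _ _, ?_⟩
    have h1 : imM (0 : Matrix (Fin 0) (Fin 0) ℂ) = 1 := Subsingleton.elim _ _
    rw [h1]
    exact Matrix.PosDef.one
  exact ⟨AVZ h, by rw [finrank_AVZ]⟩

variable {C : ChowTheory} {X : AV} {c : ℕ} {p : C.Co X X}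

/-- The inclusion of `H^m(X, ℚ)`. -/
def inc (X : AV) (m : ℕ) : (X.H [⋀^Fin m]→ₗ[ℚ] ℚ) →ₗ[ℚ] HT X :=
  LinearMap.single ℚ (fun m => X.H [⋀^Fin m]→ₗ[ℚ] ℚ) m

theorem inc_same (m : ℕ) (θ : X.H [⋀^Fin m]→ₗ[ℚ] ℚ) : inc X m θ m = θ :=
  Pi.single_eq_same (M := fun m => X.H [⋀^Fin m]→ₗ[ℚ] ℚ) m θ
theorem inc_ne {m l : ℕ} (h : l ≠ m) (θ : X.H [⋀^Fin m]→ₗ[ℚ] ℚ) : inc X m θ l = 0 :=
  Pi.single_eq_of_ne (M := fun m => X.H [⋀^Fin m]→ₗ[ℚ] ℚ) h θ

theorem eq_inc {m : ℕ} {θ : X.H [⋀^Fin m]→ₗ[ℚ] ℚ} {x : HT X} (h1 : x m = θ)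
    (h2 : ∀ l, l ≠ m → x l = 0) : x = inc X m θ := by
  funext l
  by_cases h : l = m
  · subst h
    rw [inc_same, h1]
  · rw [inc_ne h, h2 l h]

/-- Forms of large degree are zero. -/
theorem form_zero {m : ℕ} (hm : finrank ℚ X.H < m) (f : X.H [⋀^Fin m]→ₗ[ℚ] ℚ) : f = 0 := by
  ext v
  rw [AlternatingMap.zero_apply]
  refine f.map_linearDependent v fun hli => ?_
  have h1 := hli.fintype_card_le_finrank
  rw [Fintype.card_fin] at h1
  omega

/-- An element is the sum of its components. -/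
theorem sum_inc (x : HT X) : x = ∑ m ∈ Finset.range (finrank ℚ X.H + 1), inc X m (x m) := by
  funext l
  have h1 : (∑ m ∈ Finset.range (finrank ℚ X.H + 1), inc X m (x m)) l =
      ∑ m ∈ Finset.range (finrank ℚ X.H + 1), inc X m (x m) l :=
    Finset.sum_apply (M := fun m => X.H [⋀^Fin m]→ₗ[ℚ] ℚ) l _ _
  rw [h1]
  by_cases hl : finrank ℚ X.H < l
  · exact (form_zero hl _).trans (form_zero hl _).symm
  · rw [Finset.sum_eq_single l (fun m _ hm => inc_ne hm.symm _)
      (fun h => absurd (Finset.mem_range.2 (by omega)) h), inc_same]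

/-- The components of the cohomology of the motive. -/
theorem img_le (hG : GHC C.alg X) (hp : C.IsMotive p) (hc : C.HasConiveau p c) (m : ℕ) :
    ∀ v ∈ C.img p m, inc X m v ∈
      ⨆ i : Ix C X c, Rg i := by
  have hV := C.hodge p hp.1 m
  change IsHodgeSubstructure X.per (C.img p m) at hV
  rcases le_or_gt (2 * c) m with h | h
  · obtain ⟨n, rfl⟩ : ∃ n, m = n + 2 * c := ⟨m - 2 * c, by omega⟩
    have hL : LevelLE X.per (C.img p (n + 2 * c)) n := by
      intro s t hst hne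
      by_cases h1 : s = t
      · subst h1
        rw [sub_self, abs_zero]
        exact Int.natCast_nonneg n
      · have h2 : ¬ (s < c ∨ t < c) := fun h2 => hne (hc _ s t hst h1 h2)
        rw [abs_le]
        constructor <;> omega
    intro v hv
    have h1 := hG n c _ hV hL hv
    unfold Cor at h1
    clear hv
    induction h1 using Submodule.span_induction with
    | mem f hf =>
      obtain ⟨Y, P, a, b, τ, y, ha, hb, hab, hτ, hfx⟩ := hf
      obtain ⟨Γ, hΓ, h2⟩ := C.classes a b ha hb hab n (n + 2 * c) c rfl τ hτ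
      obtain ⟨ω, hω, hω'⟩ := h2 y f hfx
      have h3 : inc X (n + 2 * c) f ∈
          Rg (⟨Y, c, Γ, Or.inl rfl, hΓ⟩ : Ix C X c) := ⟨ω, eq_inc hω hω'⟩
      exact Submodule.mem_iSup_of_mem _ h3
    | zero => rw [map_zero]; exact Submodule.zero_mem _
    | add f g _ _ hf hg => rw [map_add]; exact Submodule.add_mem _ hf hg
    | smul r f _ hf => rw [map_smul]; exact Submodule.smul_mem _ _ hf
  · rcases Nat.even_or_odd' m with ⟨j, hj | hj⟩
    · obtain rfl : m = 0 + 2 * j := by omega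
      have hL : LevelLE X.per (C.img p (0 + 2 * j)) (0 : ℕ) := by
        intro s t hst hne
        by_cases h1 : s = t
        · subst h1
          rw [sub_self, abs_zero]
          exact Int.natCast_nonneg 0
        · exact absurd (hc _ s t hst h1 (by omega)) hne
      intro v hv
      have h1 := Pool.Agent.N507.GHC3.A_of_Cor C.alg X _ v (hG 0 j _ hV hL hv)
      obtain ⟨O, hO⟩ := exists_point
      have hO' : Subsingleton O.H := Module.finrank_zero_iff.1 hO
      have hb : Function.Bijective fun w : O.H × X.H => (0 : O.H →ₗ[ℚ] X.H) w.1 +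
          (LinearMap.id : X.H →ₗ[ℚ] X.H) w.2 := by
        constructor
        · intro w w' h2
          refine Prod.ext (Subsingleton.elim _ _) ?_
          simpa using h2
        · intro x
          exact ⟨(0, x), by simp⟩
      obtain ⟨Γ, hΓ, h2⟩ := C.classes (Y := O) (X := X) (P := X) 0 LinearMap.id
        ⟨0, fun v => by rw [LinearMap.zero_apply, LinearMap.zero_apply, map_zero]⟩
        ⟨LinearMap.id, fun v => rfl⟩ hb 0 (0 + 2 * j) j rfl
        (v.domDomCongr (Equiv.emptySum (Fin 0) (Fin (0 + 2 * j))).symm)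
        (C.alg.reindex _ _ h1)
      obtain ⟨ω, hω, hω'⟩ := h2 (fun _ => 0) v (fun x => by
        rw [AlternatingMap.domDomCongr_apply]
        congr 1)
      have h3 : inc X (0 + 2 * j) v ∈
          Rg (⟨O, j, Γ, Or.inr ⟨by omega, hO⟩, hΓ⟩ : Ix C X c) := ⟨ω, eq_inc hω hω'⟩
      exact Submodule.mem_iSup_of_mem _ h3
    · have h1 : complexify X.per (C.img p m) = ⊥ := by
        rw [eq_bot_iff]
        unfold IsHodgeSubstructure at hV
        rw [hV]
        refine iSup_le fun s => iSup_le fun t => iSup_le fun hst => ?_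
        rw [hc m s t hst (by omega) (by omega)]
      intro v hv
      rw [eq_bot_of h1, Submodule.mem_bot] at hv
      rw [hv, map_zero]
      exact Submodule.zero_mem _

theorem finite_img (m : ℕ) : (C.img p m).FG := by
  let L : (X.H [⋀^Fin m]→ₗ[ℚ] ℚ) →ₗ[ℚ] MultilinearMap ℚ (fun _ : Fin m => X.H) ℚ :=
    { toFun := fun f => f.toMultilinearMap
      map_add' := fun _ _ => rfl
      map_smul' := fun _ _ => rfl }
  have : FiniteDimensional ℚ (X.H [⋀^Fin m]→ₗ[ℚ] ℚ) :=
    FiniteDimensional.of_injective L fun f g h => AlternatingMap.coe_multilinearMap_injective h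
  exact IsNoetherian.noetherian _

/-- **The motive.** -/
theorem mem_Fac (hG : GHC C.alg X) (hp : C.IsMotive p) (hc : C.HasConiveau p c) :
    p ∈ Fac C X c := by
  classical
  obtain ⟨U, hU⟩ : ∃ U : Submodule ℚ (HT X), U = (Finset.range (finrank ℚ X.H + 1)).sup fun m =>
    (C.img p m).map (inc X m) := ⟨_, rfl⟩
  have hfg : U.FG := by
    rw [hU]
    refine Submodule.fg_finset_sup _ _ fun m _ => (finite_img m).map _
  have hle : U ≤ ⨆ i : Ix C X c, Rg i := by
    rw [hU]
    refine Finset.sup_le fun m _ => ?_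
    rintro _ ⟨v, hv, rfl⟩
    exact img_le hG hp hc m v hv
  obtain ⟨q, hq, hqU⟩ := exists_fix hfg hle
  refine lift hp hq fun v => hqU _ ?_
  -- the components
  rw [sum_inc (C.pb p v)]
  refine Submodule.sum_mem _ fun m hm => ?_
  rw [hU]
  have h2 := Finset.le_sup (f := fun m => (C.img p m).map (inc X m)) hm
  exact h2 ⟨C.pb p v m, Submodule.subset_span ⟨v, rfl⟩, rfl⟩

/-- **The cycles.** -/
theorem cycle_zero (hpF : p ∈ Fac C X c) {O : AV} (hO : finrank ℚ O.H = 0) {i : ℤ} (hi : i < c)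
    {z : C.Co O X} (hz : C.IsDeg i z) (hpz : C.o p z = z) (h0 : ∀ ω, C.pb z ω = 0) : z = 0 := by
  rw [← hpz]
  unfold Fac at hpF
  clear hpz
  induction hpF using AddSubgroup.closure_induction with
  | mem q hq =>
    obtain ⟨Y, r, Γ, κ, h1, h2, h3, rfl⟩ := hq
    rw [← C.assoc]
    have h4 : C.o Γ z = 0 := by
      rcases h1 with rfl | ⟨-, hY⟩
      · refine C.deg_neg _ (C.deg_o z Γ hz h2) ?_
        rw [hO]
        push_cast
        omega
      · refine C.point _ hO hY fun ω => ?_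
        have h5 : C.pb (C.o Γ z) ω = C.pb z (C.pb Γ ω) := C.pb_o z Γ ω
        rw [h5, h0]
    rw [h4, o_zero]
  | zero => rw [zero_o]
  | add a b _ _ ha hb => rw [C.add_o, ha, hb, add_zero]
  | neg a _ ha => rw [neg_o, ha, neg_zero]

end

end Pool.Agent.N178.BL
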